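import Mathlib

/-!
# Everywhere defined paranormal operators are bounded
-/

namespace Pool.Agent.Results.MP_69a59d_an.ParanormalBounded

open Filter Topology

/-- An everywhere defined linear map is paranormal. -/
def IsParanormal {E : Type*} [NormedAddCommGroup E] [NormedSpace ℂ E] (T : E →ₗ[ℂ] E) : Prop :=
  ∀ x : E, ‖T x‖ ^ 2 ≤ ‖T (T x)‖ * ‖x‖

/-- The Banach space version. -/
theorem bounded_of_paranormal {E : Type*} [NormedAddCommGroup E] [NormedSpace ℂ E]
    [CompleteSpace E] (T : E →ₗ[ℂ] E) (hT : IsParanormal T) :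
    ∃ C : ℝ, ∀ x : E, ‖T x‖ ≤ C * ‖x‖ := by
  let G : Submodule ℂ (E × E) := (LinearMap.graph (T ∘ₗ T)).topologicalClosure
  have hGc : IsClosed (G : Set (E × E)) := Submodule.isClosed_topologicalClosure _
  haveI : CompleteSpace G := hGc.completeSpace_coe
  let π : G →L[ℂ] E := (ContinuousLinearMap.fst ℂ E E).comp G.subtypeL
  have hsurj : Function.Surjective π := by
    intro x
    refine ⟨⟨(x, T (T x)), Submodule.le_topologicalClosure _ ?_⟩, rfl⟩
    rw [LinearMap.mem_graph_iff]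
    rfl
  obtain ⟨C, hC0, hC⟩ := π.exists_preimage_norm_le hsurj
  refine ⟨Real.sqrt C, fun x => ?_⟩
  obtain ⟨⟨⟨x', z⟩, hmem⟩, h1, h2⟩ := hC x
  have hx' : x' = x := h1
  subst hx'
  have hz : ‖z‖ ≤ C * ‖x'‖ := le_trans (norm_snd_le (x', z)) h2
  have hcl : ((x', z) : E × E) ∈ closure ((LinearMap.graph (T ∘ₗ T) : Submodule ℂ (E × E)) :
      Set (E × E)) := hmem
  obtain ⟨u, hu, hlim⟩ := mem_closure_iff_seq_limit.mp hcl
  have hu2 : ∀ n, (u n).2 = T (T (u n).1) := by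
    intro n
    have := hu n
    rw [SetLike.mem_coe, LinearMap.mem_graph_iff] at this
    exact this
  have hl1 : Tendsto (fun n => (u n).1) atTop (𝓝 x') :=
    (continuous_fst.tendsto (x', z)).comp hlim
  have hl2 : Tendsto (fun n => T (T (u n).1)) atTop (𝓝 z) := by
    have := (continuous_snd.tendsto (x', z)).comp hlim
    refine this.congr (fun n => ?_)
    exact hu2 n
  -- `T x_n → T x`
  have hl3 : Tendsto (fun n => T ((u n).1 - x')) atTop (𝓝 0) := by
    have ha : Tendsto (fun n => ‖T (T (u n).1) - T (T x')‖ * ‖(u n).1 - x'‖) atTop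
        (𝓝 (‖z - T (T x')‖ * ‖x' - x'‖)) :=
      ((hl2.sub_const _).norm).mul ((hl1.sub_const _).norm)
    rw [sub_self, norm_zero, mul_zero] at ha
    have hb : Tendsto (fun n => ‖T ((u n).1 - x')‖ ^ 2) atTop (𝓝 0) := by
      refine squeeze_zero (fun n => by positivity) (fun n => ?_) ha
      have := hT ((u n).1 - x')
      simpa [map_sub] using this
    have hc : Tendsto (fun n => Real.sqrt (‖T ((u n).1 - x')‖ ^ 2)) atTop (𝓝 (Real.sqrt 0)) :=
      (Real.continuous_sqrt.tendsto _).comp hb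
    rw [Real.sqrt_zero] at hc
    rw [tendsto_zero_iff_norm_tendsto_zero]
    refine hc.congr (fun n => ?_)
    rw [Real.sqrt_sq (norm_nonneg _)]
  have hl4 : Tendsto (fun n => T (u n).1) atTop (𝓝 (T x')) := by
    have := hl3.add_const (T x')
    rw [zero_add] at this
    refine this.congr (fun n => ?_)
    rw [map_sub, sub_add_cancel]
  have hfin : ‖T x'‖ ^ 2 ≤ ‖z‖ * ‖x'‖ :=
    le_of_tendsto_of_tendsto' (hl4.norm.pow 2) (hl2.norm.mul hl1.norm) (fun n => hT (u n).1)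
  have h3 : ‖T x'‖ ^ 2 ≤ C * ‖x'‖ ^ 2 := by
    calc ‖T x'‖ ^ 2 ≤ ‖z‖ * ‖x'‖ := hfin
      _ ≤ (C * ‖x'‖) * ‖x'‖ := by gcongr
      _ = C * ‖x'‖ ^ 2 := by ring
  calc ‖T x'‖ = Real.sqrt (‖T x'‖ ^ 2) := (Real.sqrt_sq (norm_nonneg _)).symm
    _ ≤ Real.sqrt (C * ‖x'‖ ^ 2) := Real.sqrt_le_sqrt h3
    _ = Real.sqrt C * ‖x'‖ := by
      rw [Real.sqrt_mul hC0.le, Real.sqrt_sq (norm_nonneg _)]

/-- Every everywhere defined paranormal linear map on a complex Hilbert space is bounded. -/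
theorem result (H : Type*) [NormedAddCommGroup H] [InnerProductSpace ℂ H] [CompleteSpace H]
    (T : H →ₗ[ℂ] H) (hT : IsParanormal T) : ∃ C : ℝ, ∀ x : H, ‖T x‖ ≤ C * ‖x‖ :=
  bounded_of_paranormal T hT

end Pool.Agent.Results.MP_69a59d_an.ParanormalBounded
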